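import Pool.Agent.H70.NT.Final
import Pool.Agent.H14.NT.Step

/-!
# An infinite (finitely generated) group all of whose [semi]-topologies are discrete

The answer to Q1 and Q2 is no: there is a finitely generated infinite group `W` such that every
`T₁` topology making `W` a [semi]-topological group (in particular every Hausdorff topology making
it a [quasi]-topological group, and every Hausdorff group topology) is discrete.

* A group `G` with automorphism-like elements `t (l,s,k)` (`l` law, `s` side, `k` position) and
  elements `c ≠ 1`, `c₀` is constructed by iterated amalgams, such that every `y ≠ 1` or its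
  commutator with `c₀` satisfies one of the two laws
  `(y^{t(l,1,0)} y^{t(l,1,1)} y^{t(l,1,2)})² = c (y^{t(l,0,0)} y^{t(l,0,1)} y^{t(l,0,2)})²`;
* so finitely many one-variable equations not satisfied by `1` cover `G \ {1}`;
* then every `T₁` [semi]-topology on the wreath product `G ≀ Sym(7)` is discrete.
-/

set_option autoImplicit false

namespace Pool.Agent.Results.MP_727953_al.DiscreteOnly

/-- A map `G × G → G` is separately continuous if it is continuous in each variable when the other
is fixed. -/
def SeparatelyContinuous {G : Type} (_ : TopologicalSpace G) (f : G → G → G) : Prop :=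
  (∀ a : G, Continuous fun x : G => f x a) ∧ (∀ a : G, Continuous fun x : G => f a x)

/-- `(G, t)` is a [quasi]-topological group: `q(x,y) = x y⁻¹` and `c(x,y) = x y x⁻¹ y⁻¹` are
separately continuous. -/
def IsQuasiTopological (G : Type) [Group G] (t : TopologicalSpace G) : Prop :=
  SeparatelyContinuous t (fun x y : G => x * y⁻¹) ∧
    SeparatelyContinuous t (fun x y : G => x * y * x⁻¹ * y⁻¹)

/-- `(G, t)` is a [semi]-topological group: `s(x,y) = x y` and `c(x,y) = x y x⁻¹ y⁻¹` are
separately continuous. -/
def IsSemiTopological (G : Type) [Group G] (t : TopologicalSpace G) : Prop :=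
  SeparatelyContinuous t (fun x y : G => x * y) ∧
    SeparatelyContinuous t (fun x y : G => x * y * x⁻¹ * y⁻¹)

theorem fg_countable (G : Type) [Group G] (h : Group.FG G) : Countable G := by
  obtain ⟨α, _, φ, hφ⟩ := Group.fg_iff_exists_freeGroup_hom_surjective_finite.mp h
  have : Countable (FreeGroup α) := by
    have : Function.Surjective (FreeGroup.mk (α := α)) := Quot.mk_surjective
    exact this.countable
  exact hφ.countable

/-- There is a countable, infinite, even finitely generated group `W` such that every Hausdorff
(even `T₁`) topology making `W` a [quasi]-topological group is discrete, and every Hausdorff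
(even `T₁`) topology making `W` a [semi]-topological group is discrete. -/
theorem result :
    ∃ (W : Type) (_ : Group W), Infinite W ∧ Countable W ∧ Group.FG W ∧
      (∀ t : TopologicalSpace W, IsQuasiTopological W t → @T1Space W t →
        @DiscreteTopology W t) ∧
      (∀ t : TopologicalSpace W, IsSemiTopological W t → @T1Space W t →
        @DiscreteTopology W t) := by
  obtain ⟨W, gW, hinf, hfg, h⟩ := Pool.Agent.H70.NT.final_of_step @Pool.Agent.H35.NT.step
  refine ⟨W, gW, hinf, ?_, hfg, fun t ht h1 => ?_, fun t ht h1 => h t ht h1⟩
  · exact fg_countable W hfg
  · refine h t ?_ h1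
    exact @Pool.Agent.H70.NT.IsQuasiTop.isSemiTop W gW t ht

end Pool.Agent.Results.MP_727953_al.DiscreteOnly
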