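import Pool.Agent.H70.WT.Main

set_option autoImplicit false

namespace Pool.Agent.Results.MP_727953_al.WreathTransfer

open Pool.WT

/-- **Main theorem.** For a countable group `G` with wreath product `W = G ≀ Sym(7)`:
`G` has a nondiscrete Hausdorff group topology iff `W` has a nondiscrete Hausdorff (even `T₁`)
[semi]-topology, iff `W` has a nondiscrete Hausdorff [quasi]-topology. Hence a countable
counterexample to Q1, a countable counterexample to Q2 and a countable infinite group without
nondiscrete Hausdorff group topologies exist simultaneously. -/
theorem result :
    (∀ (G : Type) [Group G] [Countable G],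
      List.TFAE [Topologizable G, Topologizable (Wr G), QuasiTopologizable (Wr G),
        SemiTopologizable (Wr G), SemiTopologizableT1 (Wr G)]) ∧
    List.TFAE [
      ∃ (G : Type) (_ : Group G), Countable G ∧ Infinite G ∧ ¬ Topologizable G,
      ∃ (G : Type) (_ : Group G), Countable G ∧ Infinite G ∧ ¬ QuasiTopologizable G,
      ∃ (G : Type) (_ : Group G), Countable G ∧ Infinite G ∧ ¬ SemiTopologizable G] :=
  main_result

end Pool.Agent.Results.MP_727953_al.WreathTransfer
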